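import Pool.Agent.Helper84.RO.FI
import Pool.Agent.Helper46.RO.MainA

/-!
# Uniform Rosset theorem: subgroups of finite index, final form
-/

namespace Pool.Agent.Helper84.RO

open Pointwise Filter Topology

universe u v

/-- `Q` is a quotient of `⟨S⟩`, `H` a subgroup of index `f` of `Q`, `N` a normal subgroup of `H`,
not finitely generated, and the derived subgroup of `H ⧸ N` is nilpotent. -/
theorem main_fi {Γ : Type u} [Group Γ] [DecidableEq Γ] (S : Finset Γ)
    (hsymm : ∀ s ∈ S, s⁻¹ ∈ S) {Q : Type v} [Group Q]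
    (φ : Subgroup.closure (S : Set Γ) →* Q) (hφ : Function.Surjective φ) (H : Subgroup Q) (f : ℕ)
    (hf : 0 < f) (hindex : H.index = f) (N : Subgroup H) [hN : N.Normal]
    (hnil : Group.IsNilpotent (commutator (H ⧸ N))) (hfg : ¬ N.FG) :
    ∃ ρ : ℝ, Tendsto (fun n : ℕ => Real.log ((S ^ n).card : ℝ) / n) atTop (𝓝 ρ) ∧
      Real.log 2 / (328 * (2 * f - 1)) ≤ ρ := by
  subst hindex
  exact main_kind Pool.Agent.Helper46.RO.goalA S hsymm φ hφ H hf.ne' (Or.inl ⟨N, hN, hnil, hfg⟩)

end Pool.Agent.Helper84.RO
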