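import Pool.Agent.Helper5.RO.Goals

set_option autoImplicit false

namespace Pool.Agent.Helper84.RO

open MvPolynomial Pool.Agent.Helper5.RO Pool.Agent.Helper29.BL

noncomputable section

section deg

variable {R : Type} [CommRing R] {σ : Type}

theorem dadd {s : σ} {a b : MvPolynomial σ R} {d : ℕ} (ha : degreeOf s a ≤ d)
    (hb : degreeOf s b ≤ d) : degreeOf s (a + b) ≤ d :=
  (degreeOf_add_le s a b).trans (max_le ha hb)

theorem dmul {s : σ} {a b : MvPolynomial σ R} {d e : ℕ} (ha : degreeOf s a ≤ d)
    (hb : degreeOf s b ≤ e) : degreeOf s (a * b) ≤ d + e :=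
  (degreeOf_mul_le s a b).trans (add_le_add ha hb)

theorem dC (s : σ) (c : R) (d : ℕ) : degreeOf s (C c : MvPolynomial σ R) ≤ d := by
  rw [degreeOf_C]; exact Nat.zero_le _

theorem dneg {s : σ} {a : MvPolynomial σ R} {d : ℕ} (ha : degreeOf s a ≤ d) :
    degreeOf s (-a) ≤ d := by
  have : -a = C (-1) * a := by rw [C_neg, C_1]; ring
  rw [this]
  exact (degreeOf_C_mul_le a s (-1)).trans ha

theorem dsub {s : σ} {a b : MvPolynomial σ R} {d : ℕ} (ha : degreeOf s a ≤ d)
    (hb : degreeOf s b ≤ d) : degreeOf s (a - b) ≤ d := by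
  rw [sub_eq_add_neg]
  exact dadd ha (dneg hb)

theorem dCmul {s : σ} {a : MvPolynomial σ R} {d : ℕ} (c : R) (ha : degreeOf s a ≤ d) :
    degreeOf s (C c * a) ≤ d := (degreeOf_C_mul_le a s c).trans ha

theorem dasm (W : WeierstrassCurve R) (v : Fin 3 → MvPolynomial σ R) (s : σ) (e : ℕ)
    (h : ∀ j, degreeOf s (v j) ≤ e) (j : Fin 3) :
    degreeOf s (asm C W v j) ≤ 2 * e := by
  have h2 : ∀ i k, degreeOf s (v i * v k) ≤ 2 * e := fun i k => by
    rw [two_mul]; exact dmul (h i) (h k)
  have hc : ∀ c i k, degreeOf s (C c * v i * v k) ≤ 2 * e := fun c i k => by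
    rw [mul_assoc]; exact dCmul c (h2 i k)
  have e2 : (2 : MvPolynomial σ R) = C 2 := (map_ofNat C 2).symm
  have e4 : (4 : MvPolynomial σ R) = C 4 := (map_ofNat C 4).symm
  fin_cases j
  · simp only [asm, Fin.zero_eta, Matrix.cons_val_zero]
    rw [pow_two, pow_two]
    refine dsub (dsub (dsub (h2 0 0) (hc _ 0 2)) (hc _ 1 2)) ?_
    exact dCmul _ (h2 2 2)
  · simp only [asm, Fin.mk_one, Matrix.cons_val_one, Matrix.cons_val_zero]
    rw [e2, pow_two]
    refine dadd (dadd (dadd (hc _ 1 0) (hc _ 0 2)) (hc _ 1 2)) ?_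
    exact dCmul _ (h2 2 2)
  · simp only [asm, Fin.reduceFinMk, Matrix.cons_val]
    rw [e4, pow_two]
    exact dsub (h2 1 1) (hc _ 0 2)

theorem dsy (a b : Fin 2 → MvPolynomial σ R) (s : σ) (d e : ℕ)
    (ha : ∀ j, degreeOf s (a j) ≤ d) (hb : ∀ j, degreeOf s (b j) ≤ e) (j : Fin 3) :
    degreeOf s (sy a b j) ≤ d + e := by
  have h2 : ∀ i k, degreeOf s (a i * b k) ≤ d + e := fun i k => dmul (ha i) (hb k)
  fin_cases j
  · simp only [sy, Fin.zero_eta, Matrix.cons_val_zero]
    exact h2 0 0
  · simp only [sy, Fin.mk_one, Matrix.cons_val_one, Matrix.cons_val_zero]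
    exact dadd (h2 0 1) (h2 1 0)
  · simp only [sy, Fin.reduceFinMk, Matrix.cons_val]
    exact h2 1 1

theorem deval (s : σ) (A : Polynomial R) (t : σ) (d : ℕ)
    (h : s = t → A.natDegree ≤ d) :
    degreeOf s (A.eval₂ C (X t : MvPolynomial σ R)) ≤ d := by
  classical
  rw [Polynomial.eval₂_eq_sum_range]
  refine (degreeOf_sum_le _ _ _).trans (Finset.sup_le fun i hi => ?_)
  refine dCmul _ ?_
  by_cases hst : s = t
  · subst hst
    have h1 := h rfl
    rw [Finset.mem_range] at hi
    rcases subsingleton_or_nontrivial R with hR | hR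
    · have : (X s : MvPolynomial σ R) ^ i = 0 := Subsingleton.elim _ _
      rw [this]; simp
    · rw [degreeOf_X_self_pow]; omega
  · rw [degreeOf_X_pow_of_ne _ hst]; exact Nat.zero_le _

theorem deval2 {τ : Type} [Fintype τ] (s : σ) (g : τ → MvPolynomial σ R)
    (N : MvPolynomial τ R) (b : τ → ℕ) (hb : ∀ p, degreeOf s (g p) ≤ b p) (d : ℕ)
    (hd : ∀ m ∈ N.support, ∑ p, m p * b p ≤ d) :
    degreeOf s (eval₂ C g N) ≤ d := by
  rw [eval₂_eq']
  refine (degreeOf_sum_le _ _ _).trans (Finset.sup_le fun m hm => ?_)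
  refine dCmul _ ?_
  refine (degreeOf_prod_le _ _ _).trans ((Finset.sum_le_sum fun p _ => ?_).trans (hd m hm))
  exact (degreeOf_pow_le _ _ _).trans (Nat.mul_le_mul_left _ (hb p))

end deg

section pol

variable {S : Type} [CommRing S]

theorem cmul {p q : Polynomial S} {e f : ℕ} (hp : p.natDegree ≤ e) (hq : q.natDegree ≤ f) :
    (p * q).coeff (e + f) = p.coeff e * q.coeff f :=
  Polynomial.coeff_mul_add_eq_of_natDegree_le hp hq

theorem cprod {τ : Type} (s : Finset τ) (T : τ → Polynomial S) (b : τ → ℕ) (m : τ → ℕ)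
    (h : ∀ p ∈ s, (T p).natDegree ≤ b p) :
    (∏ p ∈ s, T p ^ m p).natDegree ≤ ∑ p ∈ s, m p * b p ∧
    (∏ p ∈ s, T p ^ m p).coeff (∑ p ∈ s, m p * b p) = ∏ p ∈ s, (T p).coeff (b p) ^ m p := by
  classical
  induction s using Finset.induction_on with
  | empty => simp
  | insert a s ha ih =>
    obtain ⟨h1, h2⟩ := ih fun p hp => h p (Finset.mem_insert_of_mem hp)
    have h3 := h a (Finset.mem_insert_self a s)
    have h4 : (T a ^ m a).natDegree ≤ m a * b a :=
      Polynomial.natDegree_pow_le_of_le (m a) h3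
    rw [Finset.prod_insert ha, Finset.sum_insert ha, Finset.prod_insert ha]
    refine ⟨(Polynomial.natDegree_mul_le).trans (add_le_add h4 h1), ?_⟩
    rw [cmul h4 h1, h2, Polynomial.coeff_pow_of_natDegree_le h3]

theorem ceval {R τ : Type} [CommRing R] [Fintype τ] (φ : R →+* S) (T : τ → Polynomial S)
    (N : MvPolynomial τ R) (b : τ → ℕ) (hb : ∀ p, (T p).natDegree ≤ b p) (d : ℕ)
    (hd : ∀ m ∈ N.support, ∑ p, m p * b p = d) :
    (eval₂ (Polynomial.C.comp φ) T N).coeff d = eval₂ φ (fun p => (T p).coeff (b p)) N := by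
  rw [eval₂_eq', eval₂_eq', Polynomial.finsetSum_coeff]
  refine Finset.sum_congr rfl fun m hm => ?_
  rw [RingHom.comp_apply, Polynomial.coeff_C_mul, ← hd m hm, (cprod _ T b m fun p _ => hb p).2]

/-- `asm` on polynomials, coefficient at the degree bound. -/
theorem casm {K : Type} [Field K] {n : ℕ} (W : WeierstrassCurve K)
    (v : Fin 3 → Polynomial (MvPolynomial (Fin n) K)) (e : ℕ) (h : ∀ j, (v j).natDegree ≤ e)
    (j : Fin 3) :
    (asm (Polynomial.C.comp C) W v j).coeff (e + e) = asm C W (fun j => (v j).coeff e) j := by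
  have h2 : ∀ i k, (v i * v k).coeff (e + e) = (v i).coeff e * (v k).coeff e := fun i k =>
    cmul (h i) (h k)
  have hc : ∀ c i k, (Polynomial.C (C c : MvPolynomial (Fin n) K) * v i * v k).coeff (e + e) =
      C c * (v i).coeff e * (v k).coeff e := fun c i k => by
    rw [mul_assoc, Polynomial.coeff_C_mul, h2, mul_assoc]
  have e2 : (2 : Polynomial (MvPolynomial (Fin n) K)) = Polynomial.C (C 2) := by
    rw [map_ofNat, map_ofNat]
  have e4 : (4 : Polynomial (MvPolynomial (Fin n) K)) = Polynomial.C (C 4) := by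
    rw [map_ofNat, map_ofNat]
  have e2' : (2 : MvPolynomial (Fin n) K) = C 2 := by rw [map_ofNat]
  have e4' : (4 : MvPolynomial (Fin n) K) = C 4 := by rw [map_ofNat]
  fin_cases j
  · simp only [asm, Fin.zero_eta, Matrix.cons_val_zero, RingHom.comp_apply]
    rw [Polynomial.coeff_sub, Polynomial.coeff_sub, Polynomial.coeff_sub, hc, hc,
      Polynomial.coeff_C_mul, pow_two, pow_two, h2, h2, pow_two, pow_two]
  · simp only [asm, Fin.mk_one, Matrix.cons_val_one, Matrix.cons_val_zero, RingHom.comp_apply]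
    rw [e2, e2', Polynomial.coeff_add, Polynomial.coeff_add, Polynomial.coeff_add, hc, hc, hc,
      Polynomial.coeff_C_mul, pow_two, h2, pow_two]
  · simp only [asm, Fin.reduceFinMk, Matrix.cons_val, RingHom.comp_apply]
    rw [e4, e4', Polynomial.coeff_sub, hc, pow_two, h2, pow_two]

end pol

theorem map_asm {R S S' : Type} [CommRing R] [CommRing S] [CommRing S'] (φ : R →+* S)
    (ψ : S →+* S') (W : WeierstrassCurve R) (v : Fin 3 → S) (j : Fin 3) :
    ψ (asm φ W v j) = asm (ψ.comp φ) W (fun j => ψ (v j)) j := by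
  have h2 : ψ 2 = 2 := map_ofNat ψ 2
  have h4 : ψ 4 = 4 := map_ofNat ψ 4
  fin_cases j
  · simp [asm]
  · simp [asm, h2]
  · simp [asm, h4]

theorem fse_C (K : Type) [Field K] (n : ℕ) :
    (finSuccEquiv K n : MvPolynomial (Fin (n + 1)) K →+*
      Polynomial (MvPolynomial (Fin n) K)).comp C = Polynomial.C.comp C := by
  refine RingHom.ext fun r => ?_
  change finSuccEquiv K n (C r) = Polynomial.C (C r)
  rw [finSuccEquiv_apply, eval₂Hom_C]
  rfl

theorem map_sy {S S' : Type} [CommRing S] [CommRing S'] (ψ : S →+* S') (a b : Fin 2 → S)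
    (j : Fin 3) : ψ (sy a b j) = sy (fun k => ψ (a k)) (fun k => ψ (b k)) j := by
  fin_cases j
  · simp [sy]
  · simp [sy]
  · simp [sy]

theorem gDEG (hHEV : G_HEV) : Pool.Agent.Helper5.RO.G_DEG := by
  intro K _ _ W n D c A B hM f N hN
  obtain ⟨_, _, hE3, _⟩ := hHEV
  have hAd : ∀ i, (A i).natDegree ≤ c i ^ 2 := fun i => (hM i).degA.le
  have hBd : ∀ i, (B i).natDegree ≤ c i ^ 2 := fun i =>
    Polynomial.natDegree_le_of_degree_le (hM i).degB.le
  -- degrees of the triples
  have ht0 : ∀ p : Fin n × Fin 3, degreeOf 0 (trp W A B p.1 p.2) ≤ 2 * (c p.1 ^ 2) := by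
    intro p
    refine dasm W _ 0 _ (fun j => ?_) p.2
    have := dsy (![(A p.1).eval₂ C (X 0), (B p.1).eval₂ C (X 0)] :
      Fin 2 → MvPolynomial (Fin (n + 1)) K) ![X p.1.succ, 1] 0 (c p.1 ^ 2) 0 ?_ ?_ j
    · exact this
    · intro k
      fin_cases k
      · exact deval 0 (A p.1) 0 _ fun _ => hAd p.1
      · exact deval 0 (B p.1) 0 _ fun _ => hBd p.1
    · intro k
      fin_cases k
      · simp only [Fin.zero_eta, Matrix.cons_val_zero]
        rw [degreeOf_X_of_ne (Fin.succ_ne_zero p.1).symm]
      · simp only [Fin.mk_one, Matrix.cons_val_one, Matrix.cons_val_zero]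
        rw [← C_1]; exact dC _ _ _
  have hts : ∀ (i : Fin n) (p : Fin n × Fin 3), degreeOf i.succ (trp W A B p.1 p.2) ≤
      2 * (if i = p.1 then 1 else 0) := by
    intro i p
    refine dasm W _ i.succ _ (fun j => ?_) p.2
    have := dsy (![(A p.1).eval₂ C (X 0), (B p.1).eval₂ C (X 0)] :
      Fin 2 → MvPolynomial (Fin (n + 1)) K) ![X p.1.succ, 1] i.succ 0
      (if i = p.1 then 1 else 0) ?_ ?_ j
    · rw [zero_add] at this; exact this
    · intro k
      fin_cases k
      · exact deval _ (A p.1) 0 _ fun h => absurd h (Fin.succ_ne_zero i)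
      · exact deval _ (B p.1) 0 _ fun h => absurd h (Fin.succ_ne_zero i)
    · intro k
      fin_cases k
      · simp only [Fin.zero_eta, Matrix.cons_val_zero]
        by_cases h : i = p.1
        · rw [if_pos h, h, degreeOf_X_self]
        · rw [if_neg h, degreeOf_X_of_ne (fun h' => h (Fin.succ_injective _ h'))]
      · simp only [Fin.mk_one, Matrix.cons_val_one, Matrix.cons_val_zero]
        rw [← C_1]; exact dC _ _ _
  have hsum : ∀ m ∈ N.support, ∑ p : Fin n × Fin 3, m p * (2 * c p.1 ^ 2) = aa n D c := by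
    intro m hm
    rw [Fintype.sum_prod_type]
    have h1 : ∀ i : Fin n, ∑ j : Fin 3, m (i, j) * (2 * c i ^ 2) = 2 ^ n * D * c i ^ 2 := by
      intro i
      rw [← Finset.sum_mul, Fin.sum_univ_three, hN.hom m hm i]
      have hn : 1 ≤ n := by have := i.isLt; omega
      have : 2 ^ n = 2 ^ (n - 1) * 2 := by
        rw [← pow_succ]; congr 1; omega
      rw [this]; ring
    simp only [h1]
    rw [← Finset.mul_sum]
    rfl
  refine ⟨?_, ?_, ?_⟩
  · rw [HP, natDegree_finSuccEquiv, HH]
    refine deval2 0 _ N (fun p => 2 * c p.1 ^ 2) ht0 _ fun m hm => (hsum m hm).le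
  · intro k i
    rw [HP]
    refine (degreeOf_coeff_finSuccEquiv _ i k).trans ?_
    rw [HH]
    refine deval2 i.succ _ N (fun p => 2 * (if i = p.1 then 1 else 0)) (hts i) _ fun m hm => ?_
    rw [Fintype.sum_prod_type]
    have h1 : ∀ i' : Fin n, ∑ j : Fin 3, m (i', j) * (2 * (if i = i' then 1 else 0)) =
        if i = i' then 2 ^ n * D else 0 := by
      intro i'
      by_cases h : i = i'
      · rw [← Finset.sum_mul, Fin.sum_univ_three, hN.hom m hm i', if_pos h, if_pos h]
        have hn : 1 ≤ n := by have := i.isLt; omega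
        have : 2 ^ n = 2 ^ (n - 1) * 2 := by
          rw [← pow_succ]; congr 1; omega
        rw [this]; ring
      · simp [h]
    simp only [h1]
    simp
  · -- the leading coefficient
    have e1 : HP W A B N = eval₂ (Polynomial.C.comp (C : K →+* MvPolynomial (Fin n) K))
        (fun p => finSuccEquiv K n (trp W A B p.1 p.2)) N := by
      rw [HP, HH]
      have h := hom_eval₂ N (C : K →+* MvPolynomial (Fin (n + 1)) K)
        (finSuccEquiv K n : MvPolynomial (Fin (n + 1)) K →+*
          Polynomial (MvPolynomial (Fin n) K)) (fun p => trp W A B p.1 p.2)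
      have h' : (finSuccEquiv K n : MvPolynomial (Fin (n + 1)) K →+*
          Polynomial (MvPolynomial (Fin n) K)).comp C = Polynomial.C.comp C :=
        fse_C K n
      rw [h'] at h
      exact h
    rw [e1, ceval C _ N (fun p => 2 * c p.1 ^ 2) (fun p => ?_) _ hsum]
    · -- coefficients of the triples
      have key : ∀ p : Fin n × Fin 3,
          (finSuccEquiv K n (trp W A B p.1 p.2)).coeff (2 * c p.1 ^ 2) =
            sy (![X p.1, 1] : Fin 2 → MvPolynomial (Fin n) K) ![X p.1, 1] p.2 := by
        intro p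
        set i := p.1 with hi
        set ψ : MvPolynomial (Fin (n + 1)) K →+* Polynomial (MvPolynomial (Fin n) K) :=
          (finSuccEquiv K n : MvPolynomial (Fin (n + 1)) K →+*
          Polynomial (MvPolynomial (Fin n) K)) with hψ
        have hψC : ψ.comp C = Polynomial.C.comp C := fse_C K n
        have hev : ∀ Q : Polynomial K, ψ (Q.eval₂ C (X 0)) = Q.map C := by
          intro Q
          rw [Polynomial.hom_eval₂, hψC]
          have : ψ (X 0) = Polynomial.X := finSuccEquiv_X_zero
          rw [this, ← Polynomial.eval₂_map, Polynomial.eval₂_C_X]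
        have h1 : finSuccEquiv K n (trp W A B i p.2) = asm (Polynomial.C.comp C) W
            (fun j => sy ![(A i).map C, (B i).map C] ![Polynomial.C (X i), 1] j) p.2 := by
          change ψ (trp W A B i p.2) = _
          rw [trp, map_asm, hψC]
          congr 2
          funext j
          rw [map_sy]
          congr 1
          · funext k
            fin_cases k
            · exact hev (A i)
            · exact hev (B i)
          · funext k
            fin_cases k
            · exact finSuccEquiv_X_succ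
            · exact map_one ψ
        have hA' : ((A i).map (C : K →+* MvPolynomial (Fin n) K)).natDegree ≤ c i ^ 2 :=
          (Polynomial.natDegree_map_le).trans (hAd i)
        have hB' : ((B i).map (C : K →+* MvPolynomial (Fin n) K)).natDegree ≤ c i ^ 2 :=
          (Polynomial.natDegree_map_le).trans (hBd i)
        have hAc : ((A i).map (C : K →+* MvPolynomial (Fin n) K)).coeff (c i ^ 2) = 1 := by
          rw [Polynomial.coeff_map, ← (hM i).degA, Polynomial.coeff_natDegree, (hM i).monic,
            map_one]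
        have hBc : ((B i).map (C : K →+* MvPolynomial (Fin n) K)).coeff (c i ^ 2) = 0 := by
          rw [Polynomial.coeff_map, Polynomial.coeff_eq_zero_of_degree_lt (hM i).degB, map_zero]
        have hs : ∀ j, (sy ![(A i).map (C : K →+* MvPolynomial (Fin n) K), (B i).map C]
            ![Polynomial.C (X i), 1] j).natDegree ≤ c i ^ 2 ∧
            (sy ![(A i).map (C : K →+* MvPolynomial (Fin n) K), (B i).map C]
            ![Polynomial.C (X i), 1] j).coeff (c i ^ 2) =
              (![X i, 1, 0] : Fin 3 → MvPolynomial (Fin n) K) j := by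
          intro j
          fin_cases j
          · simp only [sy, Fin.zero_eta, Matrix.cons_val_zero]
            refine ⟨(Polynomial.natDegree_mul_C_le _ _).trans hA', ?_⟩
            rw [Polynomial.coeff_mul_C, hAc, one_mul]
          · simp only [sy, Fin.mk_one, Matrix.cons_val_one, Matrix.cons_val_zero, mul_one]
            refine ⟨Polynomial.natDegree_add_le_of_degree_le hA'
              ((Polynomial.natDegree_mul_C_le _ _).trans hB'), ?_⟩
            rw [Polynomial.coeff_add, Polynomial.coeff_mul_C, hAc, hBc, zero_mul, add_zero]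
          · simp only [sy, Fin.reduceFinMk, Matrix.cons_val, mul_one]
            exact ⟨hB', hBc⟩
        rw [h1, two_mul, casm W _ (c i ^ 2) (fun j => (hs j).1)]
        have h3 : (fun j => (sy ![(A i).map (C : K →+* MvPolynomial (Fin n) K), (B i).map C]
            ![Polynomial.C (X i), 1] j).coeff (c i ^ 2)) =
              (![X i, 1, 0] : Fin 3 → MvPolynomial (Fin n) K) := by
          funext j; exact (hs j).2
        rw [h3]
        generalize p.2 = j
        fin_cases j
        · simp [asm, sy, pow_two]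
        · simp [asm, sy, two_mul]
        · simp [asm, sy]
      have e2 : (fun p : Fin n × Fin 3 =>
          (finSuccEquiv K n (trp W A B p.1 p.2)).coeff (2 * c p.1 ^ 2)) =
            fun p => sy (![X p.1, 1] : Fin 2 → MvPolynomial (Fin n) K) ![X p.1, 1] p.2 := by
        funext p; exact key p
      rw [e2, hN.val (MvPolynomial (Fin n) K) C (fun i => ![X i, 1]) (fun i => ![X i, 1])]
      have e3 : ∀ T : Finset (Fin n), hev (C : K →+* MvPolynomial (Fin n) K) D f
          (fun i => if i ∈ T then ![X i, 1] else ![X i, 1]) = f := by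
        intro T
        have : (fun i : Fin n => if i ∈ T then (![X i, 1] : Fin 2 → MvPolynomial (Fin n) K)
            else ![X i, 1]) = fun i => ![X i, 1] := by
          funext i; rw [ite_self]
        rw [this, hE3, eval₂_eta]
      rw [Finset.prod_congr rfl fun T _ => e3 T, Finset.prod_const, Finset.card_univ,
        Fintype.card_finset, Fintype.card_fin]
    · rw [natDegree_finSuccEquiv]
      exact ht0 p

end

end Pool.Agent.Helper84.RO
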