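import Pool.Agent.Helper29.RO.B

/-!
# Uniform Rosset theorem: subgroups of finite index
-/

namespace Pool.Agent.Helper84.RO

open Pointwise Filter Topology
open Pool.Agent.Helper11.Gap (Sym Big mul_mem_pow IsPolycyclic)
open Pool.Agent.Helper46.RO (GoalA)

universe u v

section schreier

variable {G : Type u} [Group G] [DecidableEq G] {T : Finset G}

/-- Every coset has a representative of length less than the index. -/
theorem exists_rep (hT : Sym T) (hgen : Subgroup.closure (T : Set G) = ⊤) (H : Subgroup G)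
    (hf0 : H.index ≠ 0) (g : G) : ∃ r ∈ T ^ (H.index - 1), r⁻¹ * g ∈ H := by
  classical
  have : Fintype (G ⧸ H) := Subgroup.fintypeOfIndexNeZero hf0
  have hcard : Fintype.card (G ⧸ H) = H.index := by
    rw [Subgroup.index, Nat.card_eq_fintype_card]
  set C : ℕ → Finset (G ⧸ H) := fun n => (T ^ n).image (QuotientGroup.mk : G → G ⧸ H) with hC
  have hmono : ∀ n, C n ⊆ C (n + 1) := by
    intro n
    exact Finset.image_subset_image (Finset.pow_subset_pow_right hT.one (Nat.le_succ n))
  have hstep : ∀ n, ∀ s ∈ T, ∀ c ∈ C n, s • c ∈ C (n + 1) := by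
    intro n s hs c hc
    obtain ⟨x, hx, rfl⟩ := Finset.mem_image.1 hc
    refine Finset.mem_image.2 ⟨s * x, ?_, rfl⟩
    rw [add_comm]
    exact mul_mem_pow (hT.mem_one hs) hx
  have hstable : ∀ n, C n = C (n + 1) → C n = Finset.univ := by
    intro n hn
    have hall : ∀ g ∈ Subgroup.closure (T : Set G), ∀ c ∈ C n, g • c ∈ C n := by
      intro g hg
      induction hg using Subgroup.closure_induction with
      | mem x hx => intro c hc; rw [hn]; exact hstep n x hx c hc
      | one => intro c hc; rwa [one_smul]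
      | mul x y _ _ hx hy => intro c hc; rw [mul_smul]; exact hx _ (hy c hc)
      | inv x _ hx =>
        intro c hc
        -- x • · is an injective self-map of the finite set C n
        have hinj : Function.Injective (fun c : G ⧸ H => x • c) := MulAction.injective x
        have himg : (C n).image (fun c => x • c) = C n := by
          apply Finset.eq_of_subset_of_card_le
          · intro d hd
            obtain ⟨c, hc, rfl⟩ := Finset.mem_image.1 hd
            exact hx c hc
          · rw [Finset.card_image_of_injective _ hinj]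
        rw [← himg] at hc
        obtain ⟨d, hd, hdc⟩ := Finset.mem_image.1 hc
        rw [← hdc, inv_smul_smul]
        exact hd
    apply Finset.eq_univ_iff_forall.2
    intro c
    obtain ⟨g, rfl⟩ := QuotientGroup.mk_surjective c
    have h1 : (QuotientGroup.mk (1 : G) : G ⧸ H) ∈ C n :=
      Finset.mem_image.2 ⟨1, hT.one_mem_pow n, rfl⟩
    have h2 := hall g (by rw [hgen]; exact Subgroup.mem_top g) _ h1
    have e : g • (QuotientGroup.mk (1 : G) : G ⧸ H) = QuotientGroup.mk g := by
      rw [← QuotientGroup.mk_mul_of_mem g (one_mem H)]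
      simp [MulAction.Quotient.smul_mk]
    rwa [e] at h2
  have key : ∀ n, C n = Finset.univ ∨ n + 1 ≤ (C n).card := by
    intro n
    induction n with
    | zero =>
      right
      exact Finset.card_pos.2 ⟨QuotientGroup.mk 1, Finset.mem_image.2 ⟨1, by simp, rfl⟩⟩
    | succ n ih =>
      rcases ih with ih | ih
      · left
        exact Finset.eq_univ_iff_forall.2 fun c => hmono n (by rw [ih]; exact Finset.mem_univ c)
      · by_cases h : C n = C (n + 1)
        · left
          rw [← h]
          exact hstable n h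
        · right
          have h1 : C n ⊂ C (n + 1) := lt_of_le_of_ne (hmono n) h
          have h2 := Finset.card_lt_card h1
          omega
  have hfull : C (H.index - 1) = Finset.univ := by
    rcases key (H.index - 1) with h | h
    · exact h
    · apply Finset.eq_univ_of_card
      apply le_antisymm (Finset.card_le_univ _)
      rw [hcard]
      omega
  have hg : (QuotientGroup.mk g : G ⧸ H) ∈ C (H.index - 1) := by
    rw [hfull]; exact Finset.mem_univ _
  obtain ⟨r, hr, hrg⟩ := Finset.mem_image.1 hg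
  exact ⟨r, hr, QuotientGroup.eq.1 hrg⟩

/-- A subgroup of index `f` is generated by its elements of length at most `2 f - 1`. -/
theorem exists_gen (hT : Sym T) (hgen : Subgroup.closure (T : Set G) = ⊤) (H : Subgroup G)
    (hf0 : H.index ≠ 0) : ∃ T' : Finset H, Sym T' ∧ Subgroup.closure (T' : Set H) = ⊤ ∧
      ∀ x ∈ T', (x : G) ∈ T ^ (2 * H.index - 1) := by
  classical
  set T' : Finset H := Finset.subtype (fun x => x ∈ H) (T ^ (2 * H.index - 1)) with hT'
  have hmem : ∀ x : H, x ∈ T' ↔ (x : G) ∈ T ^ (2 * H.index - 1) := by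
    intro x
    rw [hT', Finset.mem_subtype]
  refine ⟨T', ⟨?_, ?_⟩, ?_, fun x hx => (hmem x).1 hx⟩
  · rw [hmem]; exact hT.one_mem_pow _
  · intro x hx
    rw [hmem] at hx ⊢
    rw [Subgroup.coe_inv]
    exact hT.inv_mem_pow hx
  · set K : Subgroup G := (Subgroup.closure (T' : Set H)).map H.subtype with hK
    have hKH : K ≤ H := by
      rw [hK]
      rintro _ ⟨y, _, rfl⟩
      exact y.2
    have hKmem : ∀ x ∈ H, x ∈ T ^ (2 * H.index - 1) → x ∈ K := by
      intro x hx hxT
      exact ⟨⟨x, hx⟩, Subgroup.subset_closure ((hmem ⟨x, hx⟩).2 hxT), rfl⟩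
    have hpos : 1 ≤ H.index := Nat.one_le_iff_ne_zero.2 hf0
    have hstep : ∀ s ∈ T, ∀ a : G, (∃ r ∈ T ^ (H.index - 1), r⁻¹ * a ∈ K) →
        ∃ r ∈ T ^ (H.index - 1), r⁻¹ * (s * a) ∈ K := by
      rintro s hs a ⟨r, hr, hra⟩
      obtain ⟨r', hr', hr''⟩ := exists_rep hT hgen H hf0 (s * r)
      refine ⟨r', hr', ?_⟩
      have h1 : r'⁻¹ * (s * r) ∈ K := by
        apply hKmem _ hr''
        have h2 := mul_mem_pow (hT.inv_mem_pow hr') (mul_mem_pow (hT.mem_one hs) hr)
        exact hT.mono (by omega) h2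
      have e : r'⁻¹ * (s * a) = r'⁻¹ * (s * r) * (r⁻¹ * a) := by group
      rw [e]
      exact K.mul_mem h1 hra
    have hall : ∀ n : ℕ, ∀ g ∈ T ^ n, ∀ a : G,
        (∃ r ∈ T ^ (H.index - 1), r⁻¹ * a ∈ K) → ∃ r ∈ T ^ (H.index - 1), r⁻¹ * (g * a) ∈ K := by
      intro n
      induction n with
      | zero =>
        intro g hg a ha
        rw [pow_zero, Finset.mem_one] at hg
        rwa [hg, one_mul]
      | succ n ih =>
        intro g hg a ha
        rw [pow_succ'] at hg
        obtain ⟨s, hs, z, hz, rfl⟩ := Finset.mem_mul.1 hg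
        rw [mul_assoc]
        exact hstep s hs _ (ih z hz a ha)
    rw [eq_top_iff]
    intro x _
    obtain ⟨n, hn⟩ := hT.exists_mem_pow_of_mem_closure
      (g := (x : G)) (by rw [hgen]; exact Subgroup.mem_top _)
    obtain ⟨r, hr, hrx⟩ := hall n (x : G) hn 1
      ⟨1, hT.one_mem_pow _, by rw [inv_one, one_mul]; exact K.one_mem⟩
    rw [mul_one] at hrx
    have hrH : r ∈ H := by
      have h1 := H.mul_mem x.2 (H.inv_mem (hKH hrx))
      have e : (x : G) * (r⁻¹ * x)⁻¹ = r := by group
      rwa [e] at h1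
    have hrK : r ∈ K := hKmem r hrH (hT.mono (by omega) hr)
    have hxK : (x : G) ∈ K := by
      have h1 := K.mul_mem hrK hrx
      rwa [mul_inv_cancel_left] at h1
    obtain ⟨y, hy, hyx⟩ := hxK
    have : y = x := Subtype.ext hyx
    rwa [← this]

/-- The growth of a subgroup of finite index. -/
theorem big_finite_index (hT : Sym T)
    (hgen : Subgroup.closure (T : Set G) = ⊤) (H : Subgroup G) (hf0 : H.index ≠ 0)
    (hbig : ∀ T' : Finset H, Sym T' → Subgroup.closure (T' : Set H) = ⊤ → Big T') :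
    ∃ l m : ℕ, 0 < l ∧
      (∀ k, m ^ k ≤ (T ^ ((2 * H.index - 1) * l * k)).card) ∧ 2 ^ l ≤ m ^ 328 := by
  classical
  obtain ⟨T', hT', hgen', hmem⟩ := exists_gen hT hgen H hf0
  obtain ⟨l, m, hl, hgrow, hlm⟩ := hbig T' hT' hgen'
  refine ⟨l, m, hl, fun k => (hgrow k).trans ?_, hlm⟩
  have himg : (T' ^ (l * k)).image H.subtype ⊆ T ^ ((2 * H.index - 1) * l * k) := by
    have h1 : (T' ^ (l * k)).image H.subtype = (T'.image H.subtype) ^ (l * k) :=
      Finset.image_pow _ _ _
    rw [h1, mul_assoc (2 * H.index - 1) l k, pow_mul T]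
    apply Finset.pow_subset_pow_left
    intro x hx
    obtain ⟨y, hy, rfl⟩ := Finset.mem_image.1 hx
    exact hmem y hy
  rw [← Finset.card_image_of_injective (T' ^ (l * k)) H.subtype_injective]
  exact Finset.card_le_card himg

end schreier

/-- The two kinds of groups. -/
def Kind (H : Type v) [Group H] : Prop :=
  (∃ (N : Subgroup H) (_ : N.Normal), Group.IsNilpotent (commutator (H ⧸ N)) ∧ ¬ N.FG) ∨
    (derivedSeries H 3 = ⊥ ∧ ¬ IsPolycyclic H)

theorem big_of_kind (hA : GoalA.{u}) {A : Type u} [Group A] [DecidableEq A] {T : Finset A}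
    (hT : Sym T) (hgen : Subgroup.closure (T : Set A) = ⊤) {H : Type v} [Group H] (θ : A →* H)
    (hθ : Function.Surjective θ) (h : Kind H) : Big T := by
  rcases h with ⟨N, hN, hnil, hfg⟩ | ⟨h3, hnp⟩
  · obtain ⟨ψ, hψ⟩ : ∃ ψ : A →* H ⧸ N, ψ = (QuotientGroup.mk' N).comp θ := ⟨_, rfl⟩
    have hker : ¬ ψ.ker.FG := by
      intro h
      apply hfg
      have e : ψ.ker.map θ = N := by
        have h1 : ψ.ker = N.comap θ := by
          ext x
          rw [MonoidHom.mem_ker, Subgroup.mem_comap, hψ, MonoidHom.comp_apply,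
            QuotientGroup.mk'_apply, QuotientGroup.eq_one_iff]
        rw [h1, Subgroup.map_comap_eq_self_of_surjective hθ]
      have h2 : Group.FG ψ.ker := (Group.fg_iff_subgroup_fg _).2 h
      have h3 : Group.FG (ψ.ker.map θ) :=
        Group.fg_of_surjective (f := θ.subgroupMap ψ.ker) (θ.subgroupMap_surjective ψ.ker)
      rw [e] at h3
      exact (Group.fg_iff_subgroup_fg _).1 h3
    exact Pool.Agent.Helper29.RO.big_of_nil hA hT hgen ψ hnil hker
  · apply Pool.Agent.Helper11.Gap.big_of_not_polycyclic hT hgen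
    intro hp
    apply hnp
    have hker : derivedSeries A 3 ≤ θ.ker := by
      rw [← Subgroup.map_eq_bot_iff, eq_bot_iff, ← h3]
      exact map_derivedSeries_le_derivedSeries θ 3
    refine hp.of_surjective (QuotientGroup.lift _ θ hker) ?_
    intro q
    obtain ⟨x, rfl⟩ := hθ q
    exact ⟨QuotientGroup.mk x, rfl⟩

theorem not_kind_of_subsingleton (H : Type v) [Group H] (hs : ∀ x : H, x = 1) : ¬ Kind H := by
  rintro (⟨N, hN, _, hfg⟩ | ⟨_, hnp⟩)
  · apply hfg
    have : N = ⊥ := by
      rw [eq_bot_iff]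
      intro x _
      rw [Subgroup.mem_bot]
      exact hs x
    rw [this]
    exact ⟨∅, by simp⟩
  · apply hnp
    refine ⟨0, fun _ => ⊥, rfl, ?_, fun i hi => absurd hi (Nat.not_lt_zero i)⟩
    rw [eq_comm, eq_bot_iff]
    intro x _
    rw [Subgroup.mem_bot]
    exact hs x

/-- The growth rate from the growth along multiples. -/
theorem log_div_le {G : Type*} [Group G] [DecidableEq G] (S : Finset G)
    (hne : S.Nonempty) (hsymm : ∀ s ∈ S, s⁻¹ ∈ S) (ρ : ℝ)
    (hρ : Tendsto (fun n : ℕ => Real.log ((S ^ n).card : ℝ) / n) atTop (𝓝 ρ)) (l m : ℕ)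
    (hl : 0 < l) (hm : 0 < m) (h : ∀ k, m ^ k ≤ ((insert 1 S) ^ (l * k)).card) :
    Real.log m / l ≤ ρ := by
  have hm' : (0 : ℝ) < m := by exact_mod_cast hm
  have hl' : (0 : ℝ) < l := by exact_mod_cast hl
  -- lower bound along `l k + 1`
  have hsub : Tendsto (fun k : ℕ => l * k + 1) atTop atTop := by
    exact (tendsto_add_atTop_iff_nat 1).2 tendsto_id |>.comp (tendsto_id.const_mul_atTop' hl)
  have h1 := hρ.comp hsub
  have hbound : ∀ k : ℕ, ((k : ℝ) * Real.log m - Real.log 2) / ((l : ℝ) * k + 1) ≤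
      ((fun n : ℕ => Real.log ((S ^ n).card : ℝ) / n) ∘ fun k : ℕ => l * k + 1) k := by
    intro k
    have hc : (0 : ℝ) < ((S ^ (l * k + 1)).card : ℝ) := by
      exact_mod_cast (hne.pow).card_pos
    have h2 : ((m : ℝ) ^ k) ≤ 2 * ((S ^ (l * k + 1)).card : ℝ) := by
      exact_mod_cast (h k).trans (Pool.Agent.Helper11.Gap.card_insert_pow_le S hne hsymm (l * k))
    have h3 := Real.log_le_log (by positivity) h2
    rw [Real.log_pow, Real.log_mul (by norm_num) hc.ne'] at h3
    simp only [Function.comp_apply]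
    push_cast
    apply div_le_div_of_nonneg_right _ (by positivity)
    linarith
  have hlim : Tendsto (fun k : ℕ => ((k : ℝ) * Real.log m - Real.log 2) / ((l : ℝ) * k + 1)) atTop
      (𝓝 (Real.log m / l)) := by
    have e : ∀ᶠ k : ℕ in atTop, (Real.log m - Real.log 2 / (k : ℝ)) / ((l : ℝ) + 1 / (k : ℝ)) =
        ((k : ℝ) * Real.log m - Real.log 2) / ((l : ℝ) * k + 1) := by
      filter_upwards [eventually_gt_atTop 0] with k hk
      have hk' : (0 : ℝ) < k := by exact_mod_cast hk
      field_simp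
    refine Tendsto.congr' e ?_
    have t1 : Tendsto (fun k : ℕ => Real.log m - Real.log 2 / (k : ℝ)) atTop
        (𝓝 (Real.log m - 0)) :=
      tendsto_const_nhds.sub (tendsto_const_div_atTop_nhds_zero_nat _)
    have t2 : Tendsto (fun k : ℕ => (l : ℝ) + 1 / (k : ℝ)) atTop (𝓝 ((l : ℝ) + 0)) :=
      tendsto_const_nhds.add (tendsto_const_div_atTop_nhds_zero_nat _)
    have t3 := t1.div t2 (by rw [add_zero]; exact hl'.ne')
    rw [sub_zero, add_zero] at t3
    exact t3
  exact le_of_tendsto_of_tendsto' hlim h1 hbound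

set_option exponentiation.threshold 400 in
/-- The growth rate from blocks of length `F l`. -/
theorem rate_lower {G : Type*} [Group G] [DecidableEq G] (S : Finset G)
    (hne : S.Nonempty) (hsymm : ∀ s ∈ S, s⁻¹ ∈ S) (ρ : ℝ)
    (hρ : Tendsto (fun n : ℕ => Real.log ((S ^ n).card : ℝ) / n) atTop (𝓝 ρ)) (F l m : ℕ)
    (hF : 0 < F) (hl : 0 < l) (h : ∀ k, m ^ k ≤ ((insert 1 S) ^ (F * l * k)).card)
    (hlm : 2 ^ l ≤ m ^ 328) : Real.log 2 / (328 * F) ≤ ρ := by
  have hm : 0 < m := by
    rcases Nat.eq_zero_or_pos m with rfl | h0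
    · exfalso
      have : 0 < 2 ^ l := by positivity
      have h3 : (0 : ℕ) ^ 328 = 0 := zero_pow (by norm_num)
      rw [h3] at hlm
      omega
    · exact h0
  have h1 := log_div_le S hne hsymm ρ hρ (F * l) m (Nat.mul_pos hF hl) hm h
  refine le_trans ?_ h1
  have hl' : (0 : ℝ) < l := by exact_mod_cast hl
  have hF' : (0 : ℝ) < F := by exact_mod_cast hF
  have hlog : (l : ℝ) * Real.log 2 ≤ 328 * Real.log m := by
    have h1 : Real.log ((2 : ℝ) ^ l) ≤ Real.log ((m : ℝ) ^ 328) := by
      apply Real.log_le_log (by positivity)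
      exact_mod_cast hlm
    rw [Real.log_pow, Real.log_pow] at h1
    exact_mod_cast h1
  push_cast
  rw [div_le_div_iff₀ (by positivity) (by positivity)]
  nlinarith [mul_le_mul_of_nonneg_left hlog hF'.le]

/-- From blocks to the growth rate. -/
theorem rate_of_big' {Γ : Type u} [Group Γ] [DecidableEq Γ] (S : Finset Γ) (hne : S.Nonempty)
    (hsymm : ∀ s ∈ S, s⁻¹ ∈ S) (C : Subgroup Γ) (hC : C = Subgroup.closure (S : Set Γ))
    (F : ℕ) (hF : 0 < F)
    (hbig : ∀ T : Finset C, Sym T → Subgroup.closure (T : Set C) = ⊤ → ∃ l m : ℕ, 0 < l ∧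
      (∀ k, m ^ k ≤ (T ^ (F * l * k)).card) ∧ 2 ^ l ≤ m ^ 328) :
    ∃ ρ : ℝ, Tendsto (fun n : ℕ => Real.log ((S ^ n).card : ℝ) / n) atTop (𝓝 ρ) ∧
      Real.log 2 / (328 * F) ≤ ρ := by
  classical
  obtain ⟨ρ, hρ⟩ := Pool.Agent.Helper11.Gap.exists_rate S hne
  refine ⟨ρ, hρ, ?_⟩
  set T : Finset C := Finset.subtype (fun x => x ∈ C) (insert 1 S) with hTdef
  have hTmem : ∀ x : C, x ∈ T ↔ (x : Γ) = 1 ∨ (x : Γ) ∈ S := by
    intro x
    rw [hTdef, Finset.mem_subtype, Finset.mem_insert]
  have hTsym : Sym T := by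
    constructor
    · rw [hTmem]; exact Or.inl rfl
    · intro x hx
      rw [hTmem] at hx ⊢
      rcases hx with hx | hx
      · left; rw [Subgroup.coe_inv, hx, inv_one]
      · right; exact hsymm _ hx
  have hgen : Subgroup.closure (T : Set C) = ⊤ := by
    subst hC
    rw [eq_top_iff, ← Subgroup.closure_closure_coe_preimage (k := (S : Set Γ))]
    apply Subgroup.closure_mono
    intro x hx
    rw [Finset.mem_coe, hTmem]
    exact Or.inr hx
  have himg : T.image C.subtype = insert 1 S := by
    ext x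
    rw [Finset.mem_image]
    constructor
    · rintro ⟨y, hy, rfl⟩
      rw [hTmem] at hy
      rw [Finset.mem_insert]
      exact hy
    · intro hx
      rw [Finset.mem_insert] at hx
      have hxC : x ∈ C := by
        rcases hx with rfl | hx
        · exact C.one_mem
        · rw [hC]; exact Subgroup.subset_closure hx
      exact ⟨⟨x, hxC⟩, (hTmem _).2 hx, rfl⟩
  obtain ⟨l, m, hl, hgrow, hlm⟩ := hbig T hTsym hgen
  refine rate_lower S hne hsymm ρ hρ F l m hF hl (fun k => ?_) hlm
  have e : ((insert 1 S) ^ (F * l * k)).card = (T ^ (F * l * k)).card := by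
    rw [← himg, ← Finset.image_pow, Finset.card_image_of_injective _ C.subtype_injective]
  rw [e]
  exact hgrow k

/-- The growth gap for groups `⟨S⟩` with a quotient `Q` which has a subgroup of finite index of one
of the two kinds. -/
theorem main_kind (hA : GoalA.{u}) {Γ : Type u} [Group Γ] [DecidableEq Γ] (S : Finset Γ)
    (hsymm : ∀ s ∈ S, s⁻¹ ∈ S) {Q : Type v} [Group Q]
    (φ : Subgroup.closure (S : Set Γ) →* Q) (hφ : Function.Surjective φ) (H : Subgroup Q)
    (hf : H.index ≠ 0) (h : Kind H) :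
    ∃ ρ : ℝ, Tendsto (fun n : ℕ => Real.log ((S ^ n).card : ℝ) / n) atTop (𝓝 ρ) ∧
      Real.log 2 / (328 * (2 * H.index - 1)) ≤ ρ := by
  classical
  have hne : S.Nonempty := by
    by_contra hemp
    rw [Finset.not_nonempty_iff_eq_empty] at hemp
    refine not_kind_of_subsingleton H ?_ h
    intro x
    have hbot : Subgroup.closure (S : Set Γ) = ⊥ := by rw [hemp]; simp
    obtain ⟨y, hy⟩ := hφ (x : Q)
    have hy1 : y = 1 := Subtype.ext (Subgroup.mem_bot.1 (hbot.le y.2))
    apply Subtype.ext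
    rw [← hy, hy1, map_one, Subgroup.coe_one]
  have hindex : (H.comap φ).index = H.index := Subgroup.index_comap_of_surjective H hφ
  have hpos : 0 < 2 * H.index - 1 := by
    have := Nat.pos_of_ne_zero hf
    omega
  have hcast : ((2 * H.index - 1 : ℕ) : ℝ) = 2 * (H.index : ℝ) - 1 := by
    rw [Nat.cast_sub (by have := Nat.pos_of_ne_zero hf; omega)]
    push_cast
    ring
  rw [← hcast]
  refine rate_of_big' S hne hsymm _ rfl (2 * H.index - 1) hpos fun T hT hgen => ?_
  rw [← hindex]
  refine big_finite_index hT hgen (H.comap φ) (by rw [hindex]; exact hf) fun T' hT' hgen' => ?_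
  exact big_of_kind hA hT' hgen' (φ.subgroupComap H) (φ.subgroupComap_surjective_of_surjective H hφ) h

end Pool.Agent.Helper84.RO
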